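import Pool.Agent.Lib.MP_483d01_an.UE

/-!
# MP_483d01_an, Q1: a uniquely ergodic interval exchange and a line through it whose points on one side are all
not uniquely ergodic
-/

open MeasureTheory Set

namespace Pool.Agent.Results.MP_483d01_an.BadHalfLine

/-- the left end point of the `j`-th interval `I_j = [leftEnd a j, leftEnd a j + a j)`. -/
noncomputable def leftEnd {d : ℕ} (a : Fin d → ℝ) (j : Fin d) : ℝ :=
  ∑ i ∈ (Finset.univ : Finset (Fin d)).filter (fun i => i < j), a i

/-- the left end point of the translate of `I_j` when the pieces are laid back down in the order `π`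
(piece `i` comes before piece `j` if `π i < π j`). -/
noncomputable def newEnd {d : ℕ} (π : Equiv.Perm (Fin d)) (a : Fin d → ℝ) (j : Fin d) : ℝ :=
  ∑ i ∈ (Finset.univ : Finset (Fin d)).filter (fun i => π i < π j), a i

/-- the interval exchange `T_{π,a}` (the identity outside `I = [0, a_1 + ... + a_d)`). -/
noncomputable def exchange {d : ℕ} (π : Equiv.Perm (Fin d)) (a : Fin d → ℝ) (x : ℝ) : ℝ :=
  x + ∑ j : Fin d, (Ico (leftEnd a j) (leftEnd a j + a j)).indicator
    (fun _ => newEnd π a j - leftEnd a j) x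

/-- `T_{π,a}` has exactly one invariant Borel probability measure on `I`. -/
def UniquelyErgodic {d : ℕ} (π : Equiv.Perm (Fin d)) (a : Fin d → ℝ) : Prop :=
  ∃! μ : Measure ℝ, IsProbabilityMeasure μ ∧ μ ((Ico (0 : ℝ) (∑ i, a i))ᶜ) = 0 ∧
    μ.map (exchange π a) = μ

open Pool.Agent.Lib.MP_483d01_an

theorem not_ue_line {α : ℝ} (h0 : 0 < α) (_h1 : α < 1) {t : ℝ} (ht0 : 0 < t) (ht1 : t < 1 - α) :
    ¬ UniquelyErgodic perm4 (![1 - α, 1 - α, α, α] + t • ![0, -1, 0, 1]) := by
  set v : Fin 4 → ℝ := ![1 - α, 1 - α, α, α] + t • ![0, -1, 0, 1] with hv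
  have v0 : v 0 = 1 - α := by
    rw [hv]; show (1 - α) + t * 0 = _; ring
  have v1 : v 1 = 1 - α - t := by
    rw [hv]; show (1 - α) + t * (-1) = _; ring
  have v2 : v 2 = α := by
    rw [hv]; show α + t * 0 = _; ring
  have v3 : v 3 = α + t := by
    rw [hv]; show α + t * 1 = _; ring
  have hsum : ∑ i : Fin 4, v i = 2 := by
    rw [sum4, v0, v1, v2, v3]; ring
  have hper : ∀ x : ℝ, 1 - α - t ≤ x → x < 1 - α →
      T 4 perm4 v x = x + 1 ∧ T 4 perm4 v (x + 1) = x := by
    intro x hx1 hx2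
    constructor
    · rw [T_piece0 _ (by rw [v1]; linarith) (by rw [v2]; linarith) x (by linarith)
        (by rw [v0]; linarith), v1, v3]
      ring
    · rw [T_piece3 _ (by rw [v1]; linarith) (by rw [v2]; linarith) (x + 1)
        (by rw [v0, v1, v2]; linarith) (by rw [v0, v1, v2, v3]; linarith), v0, v2]
      ring
  have p1 := hper (1 - α - t) (by linarith) (by linarith)
  have p2 := hper (1 - α - t / 2) (by linarith) (by linarith)
  refine not_ue v (1 - α - t) (1 - α - t / 2) (by intro h; linarith) ?_ ?_ ?_ ?_ ?_ ?_ ?_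
  · rw [hsum]; exact ⟨by linarith, by linarith⟩
  · rw [hsum]; exact ⟨by linarith, by linarith⟩
  · rw [hsum, p1.1]; exact ⟨by linarith, by linarith⟩
  · rw [hsum, p2.1]; exact ⟨by linarith, by linarith⟩
  · rw [p1.1, p1.2]
  · rw [p2.1, p2.2]
  · rw [p2.1]; intro h; linarith

theorem ue_base' {α : ℝ} (h0 : 0 < α) (h1 : α < 1) (hα : Irrational α) :
    UniquelyErgodic perm4 ![1 - α, 1 - α, α, α] := ue_base h0 h1 hα

end Pool.Agent.Results.MP_483d01_an.BadHalfLine

open Pool.Agent.Results.MP_483d01_an.BadHalfLine in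
/-- There is an irreducible permutation `π` of four intervals such that for every irrational `α` in `(0,1)`
the length vector `a = (1-α, 1-α, α, α)` is uniquely ergodic for `π`, while on the line through `a` in the
direction `b = (0,-1,0,1)` every point `a + t b`, `0 < t < 1-α`, has positive coordinates and is not uniquely
ergodic.  So in every neighbourhood of `a` the non uniquely ergodic points of the line have positive measure. -/
theorem Pool.Agent.Results.MP_483d01_an.BadHalfLine.result :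
    ∃ π : Equiv.Perm (Fin 4), (∀ k : ℕ, 0 < k → k < 4 → ∃ i : Fin 4, i.val < k ∧ k ≤ (π i).val) ∧
      ∀ α : ℝ, Irrational α → 0 < α → α < 1 →
        (∀ i, 0 < (![1 - α, 1 - α, α, α] : Fin 4 → ℝ) i) ∧
        UniquelyErgodic π ![1 - α, 1 - α, α, α] ∧
        (∀ t : ℝ, 0 < t → t < 1 - α →
          (∀ i, 0 < (![1 - α, 1 - α, α, α] + t • ![0, -1, 0, 1] : Fin 4 → ℝ) i) ∧
          ¬ UniquelyErgodic π (![1 - α, 1 - α, α, α] + t • ![0, -1, 0, 1])) ∧
        (∀ U : Set (Fin 4 → ℝ), U ∈ nhds (![1 - α, 1 - α, α, α] : Fin 4 → ℝ) →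
          0 < volume {t : ℝ | ![1 - α, 1 - α, α, α] + t • ![0, -1, 0, 1] ∈ U ∧
            (∀ i, 0 < (![1 - α, 1 - α, α, α] + t • ![0, -1, 0, 1] : Fin 4 → ℝ) i) ∧
            ¬ UniquelyErgodic π (![1 - α, 1 - α, α, α] + t • ![0, -1, 0, 1])}) := by
  refine ⟨Pool.Agent.Lib.MP_483d01_an.perm4, ?_, ?_⟩
  · intro k hk0 hk4
    interval_cases k <;> decide
  intro α hirr h0 h1
  have hpos : ∀ t : ℝ, 0 < t → t < 1 - α →
      ∀ i, 0 < (![1 - α, 1 - α, α, α] + t • ![0, -1, 0, 1] : Fin 4 → ℝ) i := by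
    intro t ht0 ht1 i
    fin_cases i
    · show 0 < (1 - α) + t * 0
      linarith
    · show 0 < (1 - α) + t * (-1)
      linarith
    · show 0 < α + t * 0
      linarith
    · show 0 < α + t * 1
      linarith
  refine ⟨?_, ue_base' h0 h1 hirr, fun t ht0 ht1 => ⟨hpos t ht0 ht1, not_ue_line h0 h1 ht0 ht1⟩, ?_⟩
  · intro i
    fin_cases i
    · show 0 < 1 - α
      linarith
    · show 0 < 1 - α
      linarith
    · exact h0
    · exact h0
  · intro U hU
    have hcont : Filter.Tendsto (fun t : ℝ => (![1 - α, 1 - α, α, α] + t • ![0, -1, 0, 1] : Fin 4 → ℝ))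
        (nhds 0) (nhds (![1 - α, 1 - α, α, α] : Fin 4 → ℝ)) := by
      have h : Continuous (fun t : ℝ => (![1 - α, 1 - α, α, α] + t • ![0, -1, 0, 1] : Fin 4 → ℝ)) := by
        fun_prop
      have h2 := h.tendsto 0
      simpa using h2
    obtain ⟨ε, hε, hball⟩ := Metric.mem_nhds_iff.1 (hcont hU)
    have hsub : Ioo (0 : ℝ) (min ε (1 - α)) ⊆
        {t : ℝ | ![1 - α, 1 - α, α, α] + t • ![0, -1, 0, 1] ∈ U ∧
            (∀ i, 0 < (![1 - α, 1 - α, α, α] + t • ![0, -1, 0, 1] : Fin 4 → ℝ) i) ∧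
            ¬ UniquelyErgodic Pool.Agent.Lib.MP_483d01_an.perm4
              (![1 - α, 1 - α, α, α] + t • ![0, -1, 0, 1])} := by
      intro t ht
      have ht1 : t < ε := ht.2.trans_le (min_le_left _ _)
      have ht2 : t < 1 - α := ht.2.trans_le (min_le_right _ _)
      refine ⟨hball ?_, hpos t ht.1 ht2, not_ue_line h0 h1 ht.1 ht2⟩
      rw [Metric.mem_ball, Real.dist_eq, sub_zero, abs_of_pos ht.1]
      exact ht1
    refine lt_of_lt_of_le ?_ (measure_mono hsub)
    rw [Real.volume_Ioo, sub_zero, ENNReal.ofReal_pos]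
    exact lt_min hε (by linarith)
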